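import Pool.Agent.Helper40.HW.Main

/-! Hasse-Weil over non-normal extensions: `K` such that `K K'` is abelian over some `K'` Galois
over `K ∩ K'`; in particular, given Hasse-Weil for the twists over the fields obtained from totally
real fields by abelian and cubic extensions, Hasse-Weil for all `K` with `K K'/K'` abelian for a
Galois field `K'` in whose Galois group complex conjugation is hypercentral, and for all `K` whose
Galois closure has commuting complex conjugations. -/

namespace Pool.Agent.Results.MP_bf9450_nt.CommutingConjugations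

open Pool.Agent.Helper40.HW

theorem result {G : Type} [Group G] [TopologicalSpace G] [IsTopologicalGroup G] [CompactSpace G]
    (D : LSystem G) (K : Subgroup G) (hK : IsOpen (K : Set G)) :
    (∀ V : Subgroup G, IsOpen (V : Set G) → (∀ k ∈ K, ∀ v ∈ V, k * v * k⁻¹ ∈ V) → CommIn V K →
      (∀ J : Subgroup G, V ≤ J → J ≤ V ⊔ K → TwistsHold D J) → HasseWeil D K) ∧
    ∀ c : G, (∀ J : Subgroup G, Accessible c J → TwistsHold D J) →
      (∀ (V : Subgroup G) [V.Normal], IsOpen (V : Set G) → CommIn V K →
        ∀ n : ℕ, QuotientGroup.mk' V c ∈ Subgroup.upperCentralSeries (G ⧸ V) n →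
        HasseWeil D K) ∧
      ((∀ g h : G, g * c * g⁻¹ * (h * c * h⁻¹) * (g * c * g⁻¹)⁻¹ * (h * c * h⁻¹)⁻¹ ∈
        K.normalCore) → HasseWeil D K) :=
  ⟨fun _ hV hn hc ha => hasseWeil_abelian D hK hV hn hc ha, fun _ hD =>
    ⟨fun _ _ hV hc n hz => hasseWeil_hypercentral D hD hK hV hc n hz,
      fun h => hasseWeil_commuting D hD hK h⟩⟩

end Pool.Agent.Results.MP_bf9450_nt.CommutingConjugations
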